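import Mathlib

/-!
# A translation invariant finitely additive mean on `ℤ`, with a recurrence property
-/

namespace R721.IntMean

open Filter Topology

noncomputable section

open Classical in
/-- the part of `A` in `[0,n)` -/
def part (A : Set ℤ) (n : ℕ) : Finset ℤ := (Finset.Ico (0:ℤ) n).filter (· ∈ A)

/-- the proportion of `A` in `[0,n)` -/
def ratio (A : Set ℤ) (n : ℕ) : ℝ := ((part A n).card : ℝ) / (n : ℝ)

lemma mem_part {A : Set ℤ} {n : ℕ} {x : ℤ} : x ∈ part A n ↔ (0 ≤ x ∧ x < n) ∧ x ∈ A := by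
  classical
  simp [part]

lemma ratio_nonneg (A : Set ℤ) (n : ℕ) : 0 ≤ ratio A n := by
  unfold ratio; positivity

lemma part_card_le (A : Set ℤ) (n : ℕ) : (part A n).card ≤ n := by
  classical
  calc (part A n).card ≤ (Finset.Ico (0:ℤ) n).card := Finset.card_filter_le _ _
    _ = n := by simp

lemma ratio_le_one (A : Set ℤ) (n : ℕ) : ratio A n ≤ 1 := by
  unfold ratio
  apply div_le_one_of_le₀
  · exact_mod_cast part_card_le A n
  · positivity

/-- the ultrafilter used -/
def U : Ultrafilter ℕ := hyperfilter ℕ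

lemma U_le : (U : Filter ℕ) ≤ atTop := by
  rw [← Nat.cofinite_eq_atTop]
  exact hyperfilter_le_cofinite

lemma exists_lim (A : Set ℤ) : ∃ x : ℝ, Tendsto (ratio A) U (𝓝 x) := by
  have h : (↑(U.map (ratio A)) : Filter ℝ) ≤ 𝓟 (Set.Icc 0 1) := by
    simp only [Ultrafilter.coe_map, le_principal_iff, mem_map]
    apply Filter.univ_mem'
    intro n
    exact ⟨ratio_nonneg A n, ratio_le_one A n⟩
  obtain ⟨x, _, hx⟩ := isCompact_Icc.ultrafilter_le_nhds (U.map (ratio A)) h
  exact ⟨x, hx⟩

/-- the mean -/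
def m (A : Set ℤ) : ℝ := (exists_lim A).choose

lemma m_spec (A : Set ℤ) : Tendsto (ratio A) U (𝓝 (m A)) := (exists_lim A).choose_spec

lemma m_unique {A : Set ℤ} {x : ℝ} (h : Tendsto (ratio A) U (𝓝 x)) : m A = x :=
  tendsto_nhds_unique (m_spec A) h

lemma m_nonneg (A : Set ℤ) : 0 ≤ m A :=
  ge_of_tendsto (m_spec A) (Eventually.of_forall (ratio_nonneg A))

lemma m_univ : m Set.univ = 1 := by
  apply m_unique
  have h : ∀ᶠ n in (U : Filter ℕ), ratio Set.univ n = 1 := by
    have : ∀ᶠ n in (atTop : Filter ℕ), ratio Set.univ n = 1 := by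
      filter_upwards [eventually_gt_atTop 0] with n hn
      unfold ratio part
      have hn' : (n : ℝ) ≠ 0 := by exact_mod_cast hn.ne'
      simp [div_self hn']
    exact U_le this
  exact (tendsto_congr' h).mpr tendsto_const_nhds

lemma m_union {A B : Set ℤ} (h : Disjoint A B) : m (A ∪ B) = m A + m B := by
  classical
  apply m_unique
  have : ratio (A ∪ B) = fun n => ratio A n + ratio B n := by
    funext n
    unfold ratio
    rw [← add_div]
    congr 1
    rw [← Nat.cast_add, ← Finset.card_union_of_disjoint]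
    · congr 2
      ext x
      simp only [mem_part, Finset.mem_union, Set.mem_union]
      tauto
    · rw [Finset.disjoint_left]
      intro x hx hy
      rw [mem_part] at hx hy
      exact Set.disjoint_left.mp h hx.2 hy.2
  rw [this]
  exact (m_spec A).add (m_spec B)

lemma m_mono {A B : Set ℤ} (h : A ⊆ B) : m A ≤ m B := by
  have : B = A ∪ (B \ A) := (Set.union_sdiff_cancel h).symm
  rw [this, m_union Set.disjoint_sdiff_right]
  linarith [m_nonneg (B \ A)]

lemma m_union_le (A B : Set ℤ) : m (A ∪ B) ≤ m A + m B := by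
  have : A ∪ B = A ∪ (B \ A) := Set.union_sdiff_self.symm
  rw [this, m_union Set.disjoint_sdiff_right]
  linarith [m_mono (Set.sdiff_subset : B \ A ⊆ B)]

lemma m_empty : m ∅ = 0 := by
  have := m_union (A := ∅) (B := ∅) (by simp)
  simp at this
  exact this

lemma m_compl (A : Set ℤ) : m Aᶜ = 1 - m A := by
  have := m_union (A := A) (B := Aᶜ) disjoint_compl_right
  rw [Set.union_compl_self, m_univ] at this
  linarith

lemma m_biUnion_le {ι : Type*} (s : Finset ι) (A : ι → Set ℤ) :
    m (⋃ i ∈ s, A i) ≤ ∑ i ∈ s, m (A i) := by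
  classical
  induction s using Finset.induction_on with
  | empty => simp [m_empty]
  | insert a s ha ih =>
    rw [Finset.sum_insert ha, Finset.set_biUnion_insert]
    exact (m_union_le _ _).trans (by linarith)

lemma card_shift_le (A : Set ℤ) (t : ℤ) (n : ℕ) :
    (part {x | x + t ∈ A} n).card ≤ (part A n).card + t.natAbs := by
  classical
  have h1 : ((part {x | x + t ∈ A} n).image (fun x => x + t)).card
      = (part {x | x + t ∈ A} n).card :=
    Finset.card_image_of_injective _ (fun a b h => by simpa using h)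
  rw [← h1]
  have h2 : (part {x | x + t ∈ A} n).image (fun x => x + t) ⊆
      part A n ∪ (if 0 ≤ t then Finset.Ico (n:ℤ) (n + t) else Finset.Ico t 0) := by
    intro y hy
    rw [Finset.mem_image] at hy
    obtain ⟨x, hx, rfl⟩ := hy
    rw [mem_part] at hx
    obtain ⟨⟨hx0, hxn⟩, hxA⟩ := hx
    have hxA' : x + t ∈ A := hxA
    rw [Finset.mem_union, mem_part]
    split_ifs with ht
    · rw [Finset.mem_Ico]
      by_cases h : x + t < n
      · left; exact ⟨⟨by omega, h⟩, hxA'⟩
      · right; omega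
    · rw [Finset.mem_Ico]
      by_cases h : 0 ≤ x + t
      · left; exact ⟨⟨h, by omega⟩, hxA'⟩
      · right; omega
  refine (Finset.card_le_card h2).trans ((Finset.card_union_le _ _).trans ?_)
  gcongr
  split_ifs with ht
  · rw [Int.card_Ico]; omega
  · rw [Int.card_Ico]; omega

lemma m_shift_le (A : Set ℤ) (t : ℤ) : m {x | x + t ∈ A} ≤ m A := by
  have hlim : Tendsto (fun n : ℕ => ratio A n + (t.natAbs : ℝ) / n) U (𝓝 (m A + 0)) := by
    refine (m_spec A).add ?_
    exact (tendsto_const_div_atTop_nhds_zero_nat _).mono_left U_le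
  rw [add_zero] at hlim
  refine le_of_tendsto_of_tendsto (m_spec _) hlim (Eventually.of_forall ?_)
  intro n
  show ratio {x | x + t ∈ A} n ≤ ratio A n + (t.natAbs : ℝ) / n
  unfold ratio
  rw [← add_div]
  gcongr
  exact_mod_cast card_shift_le A t n

lemma m_shift (A : Set ℤ) (t : ℤ) : m {x | x + t ∈ A} = m A := by
  apply le_antisymm (m_shift_le A t)
  have := m_shift_le {x | x + t ∈ A} (-t)
  simpa using this

/-- If finitely many sets have positive mean and `E` is infinite, some difference of two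
elements of `E` is a difference in each of them. -/
lemma recurrence {ι : Type*} [Fintype ι] [DecidableEq ι] (A : ι → Set ℤ) (hA : ∀ a, 0 < m (A a))
    (E : Set ℤ) (hE : E.Infinite) :
    ∃ e ∈ E, ∃ e' ∈ E, e ≠ e' ∧ ∀ a, ∃ x ∈ A a, x + (e - e') ∈ A a := by
  classical
  -- a common lower bound
  obtain ⟨η, hη, hηA⟩ : ∃ η : ℝ, 0 < η ∧ ∀ a, η < m (A a) := by
    by_cases hne : Nonempty ι
    · obtain ⟨a0, ha0⟩ := Finite.exists_min (fun a => m (A a))
      refine ⟨m (A a0) / 2, by linarith [hA a0], fun a => ?_⟩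
      have := ha0 a
      linarith [hA a0]
    · refine ⟨1, one_pos, fun a => (hne ⟨a⟩).elim⟩
  set r := Fintype.card ι with hr
  obtain ⟨M, hM⟩ := exists_nat_gt ((2:ℝ) ^ r / η ^ r)
  obtain ⟨F, hFE, hFc⟩ := hE.exists_subset_card_eq M
  obtain ⟨C, hC⟩ : ∃ C : ℕ, ∀ e ∈ F, e.natAbs ≤ C := by
    refine ⟨F.sup Int.natAbs, fun e he => Finset.le_sup (f := Int.natAbs) he⟩
  have hev : ∀ᶠ n in (U : Filter ℕ), ∀ a, η < ratio (A a) n := by
    rw [Filter.eventually_all]
    intro a
    exact (m_spec (A a)).eventually (lt_mem_nhds (hηA a))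
  have hev2 : ∀ᶠ n in (U : Filter ℕ), 2 * C + 1 ≤ n := U_le (eventually_ge_atTop _)
  obtain ⟨n, hn1, hn2⟩ := (hev.and hev2).exists
  have hnpos : (0:ℝ) < n := by exact_mod_cast (by omega : 0 < n)
  -- the map
  let src : Finset (ℤ × (ι → ℤ)) := F ×ˢ Fintype.piFinset (fun a => part (A a) n)
  let tgt : Finset (ι → ℤ) := Fintype.piFinset (fun _ => Finset.Ico (-(C:ℤ)) (n + C))
  have hmap : ∀ p ∈ src, (fun a => p.2 a + p.1) ∈ tgt := by
    intro p hp
    rw [Finset.mem_product, Fintype.mem_piFinset] at hp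
    rw [Fintype.mem_piFinset]
    intro a
    have h1 := hC p.1 hp.1
    have h2 := hp.2 a
    rw [mem_part] at h2
    rw [Finset.mem_Ico]
    omega
  have hcard : tgt.card < src.card := by
    have ht : tgt.card = (n + 2 * C) ^ r := by
      rw [Fintype.card_piFinset]
      simp only [Int.card_Ico, Finset.prod_const, Finset.card_univ]
      congr 1
      omega
    have hs : src.card = M * ∏ a, (part (A a) n).card := by
      rw [Finset.card_product, Fintype.card_piFinset, hFc]
    have h3 : (η * n) ^ r ≤ ∏ a, ((part (A a) n).card : ℝ) := by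
      rw [hr, ← Finset.card_univ, ← Finset.prod_const]
      apply Finset.prod_le_prod
      · intro a _; positivity
      · intro a _
        have := hn1 a
        unfold ratio at this
        rw [lt_div_iff₀ hnpos] at this
        exact this.le
    have h4 : ((n + 2 * C : ℕ) : ℝ) ^ r ≤ (2 * n) ^ r := by
      gcongr
      have : n + 2 * C ≤ 2 * n := by omega
      exact_mod_cast this
    have h5 : ((2:ℝ) * n) ^ r < M * (η * n) ^ r := by
      rw [mul_pow, mul_pow, ← mul_assoc]
      apply mul_lt_mul_of_pos_right _ (by positivity)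
      rw [div_lt_iff₀ (by positivity)] at hM
      exact hM
    have h6 : ((tgt.card : ℕ) : ℝ) < ((src.card : ℕ) : ℝ) := by
      rw [ht, hs]
      push_cast
      push_cast at h4
      calc ((n:ℝ) + 2 * C) ^ r ≤ (2 * n) ^ r := h4
        _ < M * (η * n) ^ r := h5
        _ ≤ M * ∏ a, ((part (A a) n).card : ℝ) := by gcongr
    exact_mod_cast h6
  obtain ⟨p, hp, q, hq, hne, heq⟩ := Finset.exists_ne_map_eq_of_card_lt_of_maps_to hcard hmap
  rw [Finset.mem_product, Fintype.mem_piFinset] at hp hq
  have hfun : ∀ a, p.2 a + p.1 = q.2 a + q.1 := fun a => congrFun heq a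
  have hee : p.1 ≠ q.1 := by
    intro h
    apply hne
    refine Prod.ext h (funext fun a => ?_)
    have := hfun a
    rw [h] at this
    exact add_right_cancel this
  refine ⟨p.1, hFE hp.1, q.1, hFE hq.1, hee, fun a => ⟨p.2 a, ?_, ?_⟩⟩
  · exact (mem_part.mp (hp.2 a)).2
  · have : p.2 a + (p.1 - q.1) = q.2 a := by linarith [hfun a]
    rw [this]
    exact (mem_part.mp (hq.2 a)).2

/-- A null set misses arbitrarily long intervals. -/
lemma exists_long_interval (B : Set ℤ) (hB : m B = 0) (L : ℕ) :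
    ∃ x0 : ℤ, ∀ x : ℤ, |x - x0| ≤ L → x ∉ B := by
  by_contra hcon
  push Not at hcon
  have huniv : (Set.univ : Set ℤ) ⊆ ⋃ t ∈ Finset.Icc (-(L:ℤ)) L, {x | x + t ∈ B} := by
    intro x _
    obtain ⟨y, hy, hyB⟩ := hcon x
    rw [Set.mem_iUnion₂]
    refine ⟨y - x, ?_, ?_⟩
    · rw [Finset.mem_Icc]
      rw [abs_le] at hy
      omega
    · show x + (y - x) ∈ B
      simpa using hyB
  have h1 := m_mono huniv
  rw [m_univ] at h1
  have h2 := m_biUnion_le (Finset.Icc (-(L:ℤ)) L) (fun t => {x | x + t ∈ B})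
  have h3 : ∑ t ∈ Finset.Icc (-(L:ℤ)) L, m {x | x + t ∈ B} = 0 := by
    apply Finset.sum_eq_zero
    intro t _
    rw [m_shift, hB]
  linarith

end

end R721.IntMean
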